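import Pool.Agent.W973.IP.FDefs

/-!
# Values of `hT` and of its derivatives
-/

set_option autoImplicit false

namespace Pool.Agent.W366.IP

open Pool.Agent.W973.IP Pool.Agent.NPC Pool.Agent.NPC.ER Pool.Agent.NPC.H612

theorem idx_lt (S : List ER.Con) (c : ER.Con) (hc : c ∈ S) (i : ℕ) (hi : i ∈ c.vars) :
    (varsOf S).idxOf i < nn S := by
  unfold nn
  refine List.idxOf_lt_length_of_mem ?_
  unfold varsOf
  exact List.mem_flatMap.2 ⟨c, hc, hi⟩

theorem mix_val (E : List ℕ) (S : List ER.Con) (wn : ℕ → ℕ) (x : ℕ → ℝ) (i : ℕ)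
    (h : (varsOf S).idxOf i < nn S) :
    (mixT E S wn i).eval x =
      hv (mixP E S i) (fun l => x (nm 3 l 0)) (fun j => x (wn j)) := by
  unfold mixT mixP hv
  rw [dif_pos h]
  by_cases he : isE E i = true
  · rw [if_pos he, if_pos he, MvPolynomial.aeval_X]
    rfl
  · rw [if_neg he, if_neg he, MvPolynomial.aeval_X]
    rfl

theorem eval_oneT (b : Bool) (x : ℕ → ℝ) : (oneT b).eval x = if b = true then 1 else 0 := by
  unfold oneT
  by_cases hb : b = true
  · rw [if_pos hb, if_pos hb]
    rfl
  · rw [if_neg hb, if_neg hb]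
    rfl

theorem mix_dl (E : List ℕ) (S : List ER.Con) (x : ℕ → ℝ) (u w : Vec (nn S)) (i : ℕ)
    (t : Fin (nn S)) (h : (varsOf S).idxOf i < nn S) :
    (oneT (isB E S true t i)).eval x = hv (MvPolynomial.pderiv (Sum.inl t) (mixP E S i)) u w := by
  rw [eval_oneT]
  unfold isB mixP hv
  rw [dif_pos h]
  by_cases he : isE E i = true
  · rw [if_pos he, MvPolynomial.pderiv_X]
    by_cases ht : (varsOf S).idxOf i = t
    · have : (⟨(varsOf S).idxOf i, h⟩ : Fin (nn S)) = t := Fin.ext ht
      rw [this, Pi.single_eq_same, map_one]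
      simp [he, ht]
    · have : (⟨(varsOf S).idxOf i, h⟩ : Fin (nn S)) ≠ t := fun h' => ht (congrArg Fin.val h')
      rw [Pi.single_eq_of_ne (fun h' => this (Sum.inl.inj h')), map_zero]
      simp [he, ht]
  · rw [if_neg he, MvPolynomial.pderiv_X, Pi.single_eq_of_ne (by simp), map_zero]
    simp [he]

theorem mix_dr (E : List ℕ) (S : List ER.Con) (x : ℕ → ℝ) (u w : Vec (nn S)) (i : ℕ)
    (t : Fin (nn S)) (h : (varsOf S).idxOf i < nn S) :
    (oneT (isB E S false t i)).eval x = hv (MvPolynomial.pderiv (Sum.inr t) (mixP E S i)) u w := by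
  rw [eval_oneT]
  unfold isB mixP hv
  rw [dif_pos h]
  by_cases he : isE E i = true
  · rw [if_pos he, MvPolynomial.pderiv_X, Pi.single_eq_of_ne (by simp), map_zero]
    simp [he]
  · have he' : isE E i = false := by simpa using he
    rw [if_neg he, MvPolynomial.pderiv_X]
    by_cases ht : (varsOf S).idxOf i = t
    · have : (⟨(varsOf S).idxOf i, h⟩ : Fin (nn S)) = t := Fin.ext ht
      rw [this, Pi.single_eq_same, map_one]
      simp [he', ht]
    · have : (⟨(varsOf S).idxOf i, h⟩ : Fin (nn S)) ≠ t := fun h' => ht (congrArg Fin.val h')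
      rw [Pi.single_eq_of_ne (fun h' => this (Sum.inr.inj h')), map_zero]
      simp [he', ht]

theorem con_val (E : List ℕ) (S : List ER.Con) (wn : ℕ → ℕ) (x : ℕ → ℝ) (c : ER.Con)
    (hc : c ∈ S) :
    (conT E S wn c).eval x =
      hv (conPo E S c) (fun l => x (nm 3 l 0)) (fun j => x (wn j)) := by
  cases c with
  | one i =>
    have h1 := mix_val E S wn x i (idx_lt S _ hc i (by simp [ER.Con.vars]))
    simp only [conT, conPo, Tm.eval, h1]
    unfold hv
    rw [map_sub, map_one]
    ring
  | add i j k =>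
    have h1 := mix_val E S wn x i (idx_lt S _ hc i (by simp [ER.Con.vars]))
    have h2 := mix_val E S wn x j (idx_lt S _ hc j (by simp [ER.Con.vars]))
    have h3 := mix_val E S wn x k (idx_lt S _ hc k (by simp [ER.Con.vars]))
    simp only [conT, conPo, Tm.eval, h1, h2, h3]
    unfold hv
    rw [map_sub, map_add]
    ring
  | mul i j k =>
    have h1 := mix_val E S wn x i (idx_lt S _ hc i (by simp [ER.Con.vars]))
    have h2 := mix_val E S wn x j (idx_lt S _ hc j (by simp [ER.Con.vars]))
    have h3 := mix_val E S wn x k (idx_lt S _ hc k (by simp [ER.Con.vars]))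
    simp only [conT, conPo, Tm.eval, h1, h2, h3]
    unfold hv
    rw [map_sub, map_mul]
    ring

/-- The derivative of a constraint, given the derivatives of the variables. -/
theorem dcon_val (E : List ℕ) (S : List ER.Con) (wn : ℕ → ℕ) (x : ℕ → ℝ) (b : Bool) (t : ℕ)
    (s : Fin (nn S) ⊕ Fin (nn S))
    (hd : ∀ i, (varsOf S).idxOf i < nn S → (oneT (isB E S b t i)).eval x =
      hv (MvPolynomial.pderiv s (mixP E S i)) (fun l => x (nm 3 l 0)) (fun j => x (wn j)))
    (c : ER.Con) (hc : c ∈ S) :
    (dconT E S wn b t c).eval x =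
      hv (MvPolynomial.pderiv s (conPo E S c)) (fun l => x (nm 3 l 0)) (fun j => x (wn j)) := by
  cases c with
  | one i =>
    have h1 := hd i (idx_lt S _ hc i (by simp [ER.Con.vars]))
    simp only [dconT, conPo, h1]
    rw [map_sub, MvPolynomial.pderiv_one, sub_zero]
  | add i j k =>
    have h1 := hd i (idx_lt S _ hc i (by simp [ER.Con.vars]))
    have h2 := hd j (idx_lt S _ hc j (by simp [ER.Con.vars]))
    have h3 := hd k (idx_lt S _ hc k (by simp [ER.Con.vars]))
    simp only [dconT, conPo, Tm.eval, h1, h2, h3]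
    rw [map_sub, map_add]
    unfold hv
    rw [map_sub, map_add]
    ring
  | mul i j k =>
    have h1 := hd i (idx_lt S _ hc i (by simp [ER.Con.vars]))
    have h2 := hd j (idx_lt S _ hc j (by simp [ER.Con.vars]))
    have h3 := hd k (idx_lt S _ hc k (by simp [ER.Con.vars]))
    have g1 := mix_val E S wn x i (idx_lt S _ hc i (by simp [ER.Con.vars]))
    have g2 := mix_val E S wn x j (idx_lt S _ hc j (by simp [ER.Con.vars]))
    simp only [dconT, conPo, Tm.eval, h1, h2, h3, g1, g2]
    rw [map_sub, Derivation.leibniz]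
    unfold hv
    rw [map_sub, map_add, smul_eq_mul, smul_eq_mul, map_mul, map_mul]
    ring

/-- The derivative of the sum of squares, given the derivatives of the variables. -/
theorem dh_val (E : List ℕ) (S : List ER.Con) (wn : ℕ → ℕ) (x : ℕ → ℝ) (b : Bool) (t : ℕ)
    (s : Fin (nn S) ⊕ Fin (nn S))
    (hd : ∀ i, (varsOf S).idxOf i < nn S → (oneT (isB E S b t i)).eval x =
      hv (MvPolynomial.pderiv s (mixP E S i)) (fun l => x (nm 3 l 0)) (fun j => x (wn j))) :
    (dhT E S wn b t).eval x =
      hv (MvPolynomial.pderiv s (hP E S)) (fun l => x (nm 3 l 0)) (fun j => x (wn j)) := by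
  unfold dhT hP hv
  rw [eval_sumT, map_list_sum, map_list_sum, List.map_map, List.map_map, List.map_map]
  refine congrArg List.sum (List.map_congr_left fun c hc => ?_)
  have h1 := dcon_val E S wn x b t s hd c hc
  have h2 := con_val E S wn x c hc
  simp only [Function.comp]
  rw [pow_two, Derivation.leibniz, smul_eq_mul, map_add, map_mul]
  simp only [twoT, Tm.eval, h1, h2]
  unfold hv
  ring

theorem htT : S_HT := by
  intro E S wn x
  refine ⟨?_, fun t => ?_, fun t => ?_⟩
  · unfold hT hP hv
    rw [eval_sumT, map_list_sum, List.map_map, List.map_map]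
    refine congrArg List.sum (List.map_congr_left fun c hc => ?_)
    have h2 := con_val E S wn x c hc
    simp only [Function.comp]
    rw [map_pow]
    simp only [Tm.eval, h2]
    unfold hv
    ring
  · exact dh_val E S wn x true t (Sum.inl t) fun i hi => mix_dl E S x _ _ i t hi
  · exact dh_val E S wn x false t (Sum.inr t) fun i hi => mix_dr E S x _ _ i t hi

end Pool.Agent.W366.IP
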